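import Pool.Agent.LibSP23.S8

namespace Pool.Agent.Results.MP_3a32b7_an.NearOneSystems

open LibSP23

/-- Dynamical form of recurrence along `σ p`, `p` prime: for every minimal action `T` of `(ℕ, ·)`
by continuous maps on a compact metric space and all weights `ω` on the primes with
`∑ ω(q)/q < ∞` such that `T u` is uniformly close to the identity whenever `u` is near `1` (in the
sense of `Near ω`), every nonempty open `U` and every `l` there is `x ∈ U` such that the primes `p`
with `T ((σ p)^j) x ∈ U` for all `j ≤ l` have positive lower analytic density. -/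
def DynamicalForm.{u} (σ : ℕ → ℕ) : Prop :=
  ∀ (X : Type u) [MetricSpace X] [CompactSpace X] (T : ℕ → X → X), T 1 = id →
    (∀ m n : ℕ, 1 ≤ m → 1 ≤ n → T (m * n) = T m ∘ T n) →
    (∀ n : ℕ, 1 ≤ n → Continuous (T n)) →
    (∀ x : X, Dense {y : X | ∃ n : ℕ, 1 ≤ n ∧ T n x = y}) →
    ∀ ω : ℕ → ℝ, SummableWeights ω →
    (∀ ε : ℝ, 0 < ε → ∃ M : ℕ, 1 ≤ M ∧ ∃ (F : Finset ℝ) (δ : ℝ), 0 < δ ∧
      ∀ u : ℕ, Near ω M F δ u → ∀ x : X, dist (T u x) x ≤ ε) →
    ∀ U : Set X, IsOpen U → U.Nonempty → ∀ l : ℕ,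
      ∃ x ∈ U, PosDensity {p : ℕ | ∀ j ≤ l, T ((σ p) ^ j) x ∈ U}

/-- Colouring form of recurrence along `σ p`, `p` prime: for every finite colouring `c` of `ℕ`,
every `M ≥ 1` and every set `E` of primes with `∑_{q ∈ E} 1/q < ∞` such that `c (u x) = c x` for
all `x ≥ 1` and all squarefree `u ≡ 1 mod M` without prime factor in `E`, and every `l`, there is
`x ≥ 1` such that the primes `p` for which `x, (σ p) x, …, (σ p)^l x` have the same colour have
positive lower analytic density. -/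
def ColourForm.{u} (σ : ℕ → ℕ) : Prop :=
  ∀ (κ : Type u) [Finite κ] (c : ℕ → κ) (M : ℕ), 1 ≤ M → ∀ E : Set ℕ,
    Summable (Set.indicator {q : ℕ | q.Prime ∧ q ∈ E} fun q => (1 : ℝ) / q) →
    (∀ u : ℕ, 1 ≤ u → Squarefree u → u ≡ 1 [MOD M] → (∀ q ∈ u.primeFactors, q ∉ E) →
      ∀ x : ℕ, 1 ≤ x → c (u * x) = c x) →
    ∀ l : ℕ, ∃ x : ℕ, 1 ≤ x ∧ PosDensity {p : ℕ | ∀ j ≤ l, c ((σ p) ^ j * x) = c x}

theorem dynamicalForm_of.{u} {σ : ℕ → ℕ} (hS : ∀ ω, SummableWeights ω → ApproxD ω σ) :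
    DynamicalForm.{u} σ :=
  fun _ _ _ T _ h2 h3 h4 ω hω h5 U hU hne l => recur_dyn3 (hS ω hω) T h2 h3 h4 h5 U hU hne l

theorem colourForm_of.{u} {σ : ℕ → ℕ} (hS : ∀ ω, SummableWeights ω → ApproxD ω σ) :
    ColourForm.{u} σ :=
  fun _ _ c M hM E hE hc l => recur_colour3 hS c M hM E hE hc l

/-- Consequence: every minimal action with `∑_q d(q)/q < ∞` over the primes, where `d(q)` bounds
the displacement of `T q`, is in the class of `DynamicalForm` (with `M = 1` and `F = ∅`). -/
theorem small_generators {X : Type*} [MetricSpace X] (T : ℕ → X → X) (hT1 : T 1 = id)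
    (hTm : ∀ m n : ℕ, 1 ≤ m → 1 ≤ n → T (m * n) = T m ∘ T n) (d : ℕ → ℝ)
    (hd : ∀ q : ℕ, q.Prime → ∀ x : X, dist (T q x) x ≤ d q) (ε : ℝ) (u : ℕ)
    (hu : Near d 1 ∅ ε u) (x : X) : dist (T u x) x ≤ ε :=
  (displacement T hT1 hTm d hd u hu.2.1 x).trans hu.2.2.2.2

/-- Partial result on Q1 and Q2 of MP_3a32b7_an: `P - 1` and `P + 1` are sets of topological
multiplicative (multiple) recurrence, with a positive proportion of the primes as return times,
for all minimal systems `T` such that `T u` is close to the identity for the squarefree `u` which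
are near `1` for congruences, for finitely many characters `n ↦ n^{it}` and for some weights `ω`
on the primes with `∑ ω(q)/q < ∞`. -/
theorem result.{u, v} :
    (DynamicalForm.{u} (fun p => p - 1) ∧ ColourForm.{v} (fun p => p - 1)) ∧
    (DynamicalForm.{u} (fun p => p + 1) ∧ ColourForm.{v} (fun p => p + 1)) :=
  ⟨⟨dynamicalForm_of approxD_down, colourForm_of approxD_down⟩,
   ⟨dynamicalForm_of approxD_up, colourForm_of approxD_up⟩⟩

end Pool.Agent.Results.MP_3a32b7_an.NearOneSystems
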