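import Mathlib

/-!
# Shifted primes and multiplicative recurrence: colourings with almost monochromatic progressions

Let a finite colouring of the positive integers have, for every `d`, an infinite arithmetic
progression starting at a multiple of `d` which has one colour outside a thin set. Then there is
one integer `y` which has the colour of `y (p - 1)` and of `y (p + 1)` for many primes `p`.
-/

namespace Pool.Agent.Results.MP_3a32b7_an.ProgressionColourings

/-- The weight. -/
private noncomputable def wt (k : ℕ) : ℝ := Real.log ((k : ℝ) + 1) / ((k : ℝ) + 1)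

private theorem wt_nonneg (k : ℕ) : 0 ≤ wt k := by
  unfold wt
  have h : (0 : ℝ) ≤ (k : ℝ) := Nat.cast_nonneg k
  exact div_nonneg (Real.log_nonneg (by linarith)) (by linarith)

/-- Arithmetic progressions are not thin. -/
private theorem lin (α β : ℕ) (hβ : 1 ≤ β) : ¬ Summable (fun j : ℕ => wt (α + β * j)) := by
  intro h
  obtain ⟨C, hC⟩ : ∃ C : ℝ, C = (α : ℝ) + (β : ℝ) + 1 := ⟨_, rfl⟩
  have hα0 : (0 : ℝ) ≤ (α : ℝ) := Nat.cast_nonneg α
  have hβ1 : (1 : ℝ) ≤ (β : ℝ) := by exact_mod_cast hβ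
  have hC0 : 0 < C := by rw [hC]; linarith
  have hl : 0 < Real.log 2 := Real.log_pos (by norm_num)
  have h1 : ∀ j : ℕ, Real.log 2 / C * (1 / (j : ℝ)) ≤ wt (α + β * j) := by
    intro j
    rcases Nat.eq_zero_or_pos j with rfl | hj
    · simpa using wt_nonneg (α + β * 0)
    · have hj1 : (1 : ℝ) ≤ (j : ℝ) := by exact_mod_cast hj
      unfold wt
      push_cast
      have hz2 : (2 : ℝ) ≤ (α : ℝ) + (β : ℝ) * (j : ℝ) + 1 := by nlinarith
      have hzC : (α : ℝ) + (β : ℝ) * (j : ℝ) + 1 ≤ C * (j : ℝ) := by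
        rw [hC]
        nlinarith
      have hlog : Real.log 2 ≤ Real.log ((α : ℝ) + (β : ℝ) * (j : ℝ) + 1) :=
        Real.log_le_log (by norm_num) hz2
      have h2 : Real.log 2 / C * (1 / (j : ℝ)) = Real.log 2 / (C * (j : ℝ)) := by
        field_simp
      rw [h2]
      exact div_le_div₀ (hl.le.trans hlog) hlog (by linarith) hzC
  have h2 : Summable (fun j : ℕ => Real.log 2 / C * (1 / (j : ℝ))) :=
    Summable.of_nonneg_of_le (fun j => by positivity) h1 h
  have h3 : Real.log 2 / C ≠ 0 := (div_pos hl hC0).ne'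
  have h4 := (summable_mul_left_iff h3).1 h2
  exact Real.not_summable_one_div_natCast h4

/-- The weight of a prime. -/
private noncomputable def pw (n : ℕ) : ℝ := if n.Prime then Real.log (n : ℝ) / (n : ℝ) else 0

private theorem pw_nonneg (n : ℕ) : 0 ≤ pw n := by
  unfold pw
  split_ifs with h
  · have h1 : (1 : ℝ) ≤ (n : ℝ) := by exact_mod_cast h.one_lt.le
    exact div_nonneg (Real.log_nonneg h1) (by linarith)
  · exact le_rfl

/-- Dirichlet's theorem, with weights. -/
private theorem dir (c L : ℕ) (hL : 0 < L) (h : Nat.Coprime c L) :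
    ¬ Summable (fun s : ℕ => pw (c + L * s)) := by
  intro hs
  haveI : NeZero L := ⟨hL.ne'⟩
  have ha : IsUnit (c : ZMod L) := (ZMod.isUnit_iff_coprime c L).2 h
  refine ArithmeticFunction.vonMangoldt.not_summable_residueClass_prime_div ha ?_
  obtain ⟨c1, hc1⟩ : ∃ c1, c1 = c % L := ⟨_, rfl⟩
  obtain ⟨s0, hs0⟩ : ∃ s0, s0 = c / L := ⟨_, rfl⟩
  have hc : c = c1 + L * s0 := by
    rw [hc1, hs0]
    exact (Nat.mod_add_div c L).symm
  have h1 : Summable (fun s : ℕ => pw (c1 + L * s)) := by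
    rw [← summable_nat_add_iff s0]
    refine hs.congr fun s => ?_
    congr 1
    rw [hc]
    ring
  have hinj : Function.Injective (fun s : ℕ => c1 + L * s) := by
    intro s t hst
    have h2 : L * s = L * t := by
      have h3 : c1 + L * s = c1 + L * t := hst
      omega
    exact Nat.eq_of_mul_eq_mul_left hL h2
  refine (hinj.summable_iff ?_).1 ?_
  · intro n hn
    have h2 : ArithmeticFunction.vonMangoldt.residueClass (c : ZMod L) n = 0 := by
      refine Set.indicator_of_notMem ?_ _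
      intro h3
      have h4 : (n : ZMod L) = (c : ZMod L) := h3
      rw [ZMod.natCast_eq_natCast_iff] at h4
      refine hn ⟨n / L, ?_⟩
      have h5 : n % L = c % L := h4
      show c1 + L * (n / L) = n
      rw [hc1, ← h5]
      exact Nat.mod_add_div n L
    rw [h2]
    simp
  · refine h1.congr fun s => ?_
    show pw (c1 + L * s) = _ / ((c1 + L * s : ℕ) : ℝ)
    have h2 : ((c1 + L * s : ℕ) : ZMod L) = (c : ZMod L) := by
      rw [hc]
      push_cast
      simp
    have h3 : ArithmeticFunction.vonMangoldt.residueClass (c : ZMod L) (c1 + L * s) =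
        ArithmeticFunction.vonMangoldt (c1 + L * s) := by
      unfold ArithmeticFunction.vonMangoldt.residueClass
      exact Set.indicator_of_mem (s := {n : ℕ | (n : ZMod L) = (c : ZMod L)}) h2 _
    show pw (c1 + L * s) = (if (c1 + L * s).Prime then
      ArithmeticFunction.vonMangoldt.residueClass (c : ZMod L) (c1 + L * s) else 0) /
        ((c1 + L * s : ℕ) : ℝ)
    rw [h3]
    unfold pw
    split_ifs with hp
    · rw [ArithmeticFunction.vonMangoldt_apply_prime hp]
    · rw [zero_div]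

/-- Comparison of the two weights along progressions. -/
private theorem comp (c L α β : ℕ) (hL : 1 ≤ L) (hβ : 1 ≤ β) :
    ∃ C : ℝ, 0 ≤ C ∧ ∀ s : ℕ, 1 ≤ s → pw (c + L * s) ≤ C * wt (α + β * s) := by
  obtain ⟨C1, hC1⟩ : ∃ C1 : ℝ, C1 = (α : ℝ) + (β : ℝ) + 1 := ⟨_, rfl⟩
  obtain ⟨C0, hC0⟩ : ∃ C0 : ℝ, C0 = (c : ℝ) + (L : ℝ) := ⟨_, rfl⟩
  have hα0 : (0 : ℝ) ≤ (α : ℝ) := Nat.cast_nonneg α
  have hc0 : (0 : ℝ) ≤ (c : ℝ) := Nat.cast_nonneg c
  have hβ1 : (1 : ℝ) ≤ (β : ℝ) := by exact_mod_cast hβ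
  have hL1 : (1 : ℝ) ≤ (L : ℝ) := by exact_mod_cast hL
  have hl : 0 < Real.log 2 := Real.log_pos (by norm_num)
  have hlC0 : 0 ≤ Real.log C0 := Real.log_nonneg (by rw [hC0]; linarith)
  have hC1pos : 0 < C1 := by rw [hC1]; linarith
  have hC2 : 0 ≤ Real.log C0 / Real.log 2 + 1 := by positivity
  refine ⟨(Real.log C0 / Real.log 2 + 1) * C1, mul_nonneg hC2 hC1pos.le, fun s hs => ?_⟩
  have hs1 : (1 : ℝ) ≤ (s : ℝ) := by exact_mod_cast hs
  by_cases hp : (c + L * s).Prime
  · unfold pw wt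
    rw [if_pos hp]
    push_cast
    obtain ⟨x, hx⟩ : ∃ x : ℝ, x = (c : ℝ) + (L : ℝ) * (s : ℝ) := ⟨_, rfl⟩
    obtain ⟨z, hz⟩ : ∃ z : ℝ, z = (α : ℝ) + (β : ℝ) * (s : ℝ) + 1 := ⟨_, rfl⟩
    rw [← hx, ← hz]
    have hx1 : (s : ℝ) ≤ x := by rw [hx]; nlinarith
    have hx2 : x ≤ C0 * (s : ℝ) := by rw [hx, hC0]; nlinarith
    have hz1 : (s : ℝ) + 1 ≤ z := by rw [hz]; nlinarith
    have hz2 : z ≤ C1 * (s : ℝ) := by rw [hz, hC1]; nlinarith
    have hz3 : z ≤ C1 * x := hz2.trans (mul_le_mul_of_nonneg_left hx1 hC1pos.le)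
    have hx0 : 0 < x := by linarith
    have hz0 : 0 < z := by linarith
    have hlz2 : Real.log 2 ≤ Real.log z := Real.log_le_log (by norm_num) (by linarith)
    have hlz0 : 0 ≤ Real.log z := hl.le.trans hlz2
    have hlx : Real.log x ≤ (Real.log C0 / Real.log 2 + 1) * Real.log z := by
      have h1 : Real.log x ≤ Real.log (C0 * (s : ℝ)) := Real.log_le_log hx0 hx2
      have hC0pos : C0 ≠ 0 := by rw [hC0]; linarith
      have hs0 : (s : ℝ) ≠ 0 := by linarith
      rw [Real.log_mul hC0pos hs0] at h1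
      have h2 : Real.log (s : ℝ) ≤ Real.log z := Real.log_le_log (by linarith) (by linarith)
      have h3 : Real.log C0 ≤ Real.log C0 / Real.log 2 * Real.log z := by
        have h4 : Real.log C0 = Real.log C0 / Real.log 2 * Real.log 2 := by
          field_simp
        calc Real.log C0 = Real.log C0 / Real.log 2 * Real.log 2 := h4
          _ ≤ Real.log C0 / Real.log 2 * Real.log z :=
            mul_le_mul_of_nonneg_left hlz2 (by positivity)
      linarith
    have h5 : Real.log x / x ≤ (Real.log C0 / Real.log 2 + 1) * Real.log z / x :=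
      div_le_div_of_nonneg_right hlx hx0.le
    have h6 : (Real.log C0 / Real.log 2 + 1) * Real.log z / x ≤
        (Real.log C0 / Real.log 2 + 1) * C1 * (Real.log z / z) := by
      rw [div_le_iff₀ hx0]
      have h7 : (Real.log C0 / Real.log 2 + 1) * C1 * (Real.log z / z) * x =
          (Real.log C0 / Real.log 2 + 1) * Real.log z * (C1 * x / z) := by
        field_simp
      rw [h7]
      have h8 : 1 ≤ C1 * x / z := by rwa [le_div_iff₀ hz0, one_mul]
      exact le_mul_of_one_le_right (mul_nonneg hC2 hlz0) h8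
    exact h5.trans h6
  · unfold pw
    rw [if_neg hp]
    exact mul_nonneg (mul_nonneg hC2 hC1pos.le) (wt_nonneg _)

/-- The choice of the residue. -/
private theorem residue {A Q : ℕ} (hA : 0 < A) (h6 : 6 ∣ A) (hQ : 0 < Q) :
    ∃ u : ℕ, 0 < u ∧ A ∣ u - 1 ∧ Nat.Coprime u Q ∧ Nat.Coprime (1 + A * u) (A * Q) ∧
      Nat.Coprime (A * u - 1) (A * Q) := by
  obtain ⟨e, he⟩ : ∃ e, Q.factorial = e + 1 := ⟨Q.factorial - 1, by
    have := Q.factorial_pos
    omega⟩
  have hpow : 0 < A ^ e := pow_pos hA e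
  obtain ⟨w, hw⟩ : ∃ w, 2 * A ^ e = w + 1 := ⟨2 * A ^ e - 1, by omega⟩
  obtain ⟨u, hu⟩ : ∃ u, u = 1 + A ^ (e + 1) * w := ⟨_, rfl⟩
  have hu0 : 0 < u := by omega
  have hA1 : A ∣ u - 1 := by
    rw [hu, Nat.add_sub_cancel_left, pow_succ']
    exact Dvd.intro (A ^ e * w) (by ring)
  -- primes not dividing `A`
  have key : ∀ q : ℕ, q.Prime → q ∣ Q → ¬ q ∣ A → ((A : ZMod q) * (u : ZMod q) = 2) := by
    intro q hq hqQ hqA
    haveI : Fact q.Prime := ⟨hq⟩
    have hne : (A : ZMod q) ≠ 0 := by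
      rwa [Ne, ZMod.natCast_eq_zero_iff]
    have h1 : (A : ZMod q) ^ (e + 1) = 1 := by
      rw [← he]
      have h2 : q - 1 ∣ Q.factorial := by
        refine Nat.dvd_factorial ?_ ?_
        · have := hq.two_le
          omega
        · have := Nat.le_of_dvd hQ hqQ
          omega
      obtain ⟨s, hs⟩ := h2
      rw [hs, pow_mul, ZMod.pow_card_sub_one_eq_one hne, one_pow]
    have h3 : (w : ZMod q) = 2 * (A : ZMod q) ^ e - 1 := by
      have h4 : ((2 * A ^ e : ℕ) : ZMod q) = ((w + 1 : ℕ) : ZMod q) := by rw [hw]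
      push_cast at h4
      rw [h4]
      ring
    rw [hu]
    push_cast
    rw [h1, h3]
    have h5 : (A : ZMod q) * (1 + 1 * (2 * (A : ZMod q) ^ e - 1)) = 2 * (A : ZMod q) ^ (e + 1) := by
      ring
    rw [h5, h1, mul_one]
  have hbig : ∀ q : ℕ, q.Prime → ¬ q ∣ A → 5 ≤ q := by
    intro q hq hqA
    have h2 : q ≠ 2 := by
      rintro rfl
      exact hqA (Dvd.dvd.trans (by norm_num) h6)
    have h3 : q ≠ 3 := by
      rintro rfl
      exact hqA (Dvd.dvd.trans (by norm_num) h6)
    have h4 : q ≠ 4 := by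
      rintro rfl
      exact absurd hq (by norm_num)
    have := hq.two_le
    omega
  have hAu : 1 ≤ A * u := Nat.mul_pos hA hu0
  refine ⟨u, hu0, hA1, ?_, ?_, ?_⟩
  · rw [Nat.coprime_iff_gcd_eq_one]
    by_contra hg
    obtain ⟨q, hq, hqg⟩ := Nat.exists_prime_and_dvd hg
    have hqu : q ∣ u := hqg.trans (Nat.gcd_dvd_left _ _)
    have hqQ : q ∣ Q := hqg.trans (Nat.gcd_dvd_right _ _)
    by_cases hqA : q ∣ A
    · have h1 : q ∣ u - 1 := hqA.trans hA1
      have h2 : q ∣ 1 := by
        have h3 := Nat.dvd_sub hqu h1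
        have h4 : u - (u - 1) = 1 := by omega
        rwa [h4] at h3
      exact hq.one_lt.ne' (Nat.dvd_one.1 h2)
    · have h1 := key q hq hqQ hqA
      haveI : Fact q.Prime := ⟨hq⟩
      have h2 : (u : ZMod q) = 0 := by rwa [ZMod.natCast_eq_zero_iff]
      rw [h2, mul_zero] at h1
      have h3 : ((2 : ℕ) : ZMod q) = 0 := by
        push_cast
        exact h1.symm
      rw [ZMod.natCast_eq_zero_iff] at h3
      have := Nat.le_of_dvd (by norm_num) h3
      have := hbig q hq hqA
      omega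
  · rw [Nat.coprime_iff_gcd_eq_one]
    by_contra hg
    obtain ⟨q, hq, hqg⟩ := Nat.exists_prime_and_dvd hg
    have hqu : q ∣ 1 + A * u := hqg.trans (Nat.gcd_dvd_left _ _)
    have hqAQ : q ∣ A * Q := hqg.trans (Nat.gcd_dvd_right _ _)
    have hqA : ¬ q ∣ A := by
      intro h
      have h1 : q ∣ A * u := h.mul_right u
      have h2 := (Nat.dvd_add_left h1).1 hqu
      exact hq.one_lt.ne' (Nat.dvd_one.1 h2)
    have hqQ : q ∣ Q := ((hq.dvd_mul).1 hqAQ).resolve_left hqA
    have h1 := key q hq hqQ hqA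
    have h2 : ((1 + A * u : ℕ) : ZMod q) = 0 := by rwa [ZMod.natCast_eq_zero_iff]
    push_cast at h2
    rw [h1] at h2
    have h3 : ((3 : ℕ) : ZMod q) = 0 := by
      push_cast
      rw [← h2]
      norm_num
    rw [ZMod.natCast_eq_zero_iff] at h3
    have := Nat.le_of_dvd (by norm_num) h3
    have := hbig q hq hqA
    omega
  · rw [Nat.coprime_iff_gcd_eq_one]
    by_contra hg
    obtain ⟨q, hq, hqg⟩ := Nat.exists_prime_and_dvd hg
    have hqu : q ∣ A * u - 1 := hqg.trans (Nat.gcd_dvd_left _ _)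
    have hqAQ : q ∣ A * Q := hqg.trans (Nat.gcd_dvd_right _ _)
    have hqA : ¬ q ∣ A := by
      intro h
      have h1 : q ∣ A * u := h.mul_right u
      have h2 := Nat.dvd_sub h1 hqu
      have h3 : A * u - (A * u - 1) = 1 := by omega
      rw [h3] at h2
      exact hq.one_lt.ne' (Nat.dvd_one.1 h2)
    have hqQ : q ∣ Q := ((hq.dvd_mul).1 hqAQ).resolve_left hqA
    have h1 := key q hq hqQ hqA
    have h2 : ((A * u - 1 : ℕ) : ZMod q) = 0 := by rwa [ZMod.natCast_eq_zero_iff]
    rw [Nat.cast_sub hAu] at h2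
    push_cast at h2
    rw [h1] at h2
    have h3 : ((1 : ℕ) : ZMod q) = 0 := by
      push_cast
      rw [← h2]
      norm_num
    rw [ZMod.natCast_eq_zero_iff] at h3
    exact hq.one_lt.ne' (Nat.dvd_one.1 h3)

/-- Two progressions with the same colour outside thin sets, the quotient of the starting points
being divisible by `6` and by the first step. -/
private theorem pair {r : ℕ} (c : ℕ → Fin r)
    (hc : ∀ d, 1 ≤ d → ∃ n N κ, 1 ≤ n ∧ 1 ≤ N ∧ d ∣ n ∧
      Summable (fun k : ℕ => if c (n + k * N) = κ then 0 else wt k)) :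
    ∃ a A M K κ, 1 ≤ a ∧ 1 ≤ A ∧ 1 ≤ M ∧ 1 ≤ K ∧ 6 ∣ A ∧ M ∣ A ∧
      Summable (fun k : ℕ => if c (a + k * M) = κ then 0 else wt k) ∧
      Summable (fun k : ℕ => if c (a * A + k * K) = κ then 0 else wt k) := by
  haveI : Nonempty (Fin r) := ⟨c 0⟩
  choose! n N κ h1 h2 h3 h4 using hc
  obtain ⟨D, hD0, hD⟩ : ∃ D : ℕ → ℕ, D 0 = 1 ∧ ∀ i, D (i + 1) = n (D i) * (6 * N (D i)) :=
    ⟨fun i => Nat.rec 1 (fun _ z => n z * (6 * N z)) i, rfl, fun _ => rfl⟩
  have hpos : ∀ i, 1 ≤ D i := by
    intro i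
    induction i with
    | zero => rw [hD0]
    | succ i ih =>
      rw [hD]
      exact Nat.mul_pos (h1 _ ih) (Nat.mul_pos (by norm_num) (h2 _ ih))
  have hdiv : ∀ d i, D (i + 1) ∣ D (i + 1 + d) := by
    intro d
    induction d with
    | zero =>
      intro i
      exact dvd_rfl
    | succ d ih =>
      intro i
      have h5 : D (i + 1 + (d + 1)) = n (D (i + 1 + d)) * (6 * N (D (i + 1 + d))) := hD _
      rw [h5]
      exact (ih i).trans ((h3 _ (hpos _)).trans (Dvd.intro _ rfl))
  obtain ⟨i, j, hij, hcol⟩ := Finite.exists_ne_map_eq_of_infinite (fun i => κ (D i))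
  have main : ∀ i j, i < j → κ (D i) = κ (D j) →
      ∃ a A M K κ, 1 ≤ a ∧ 1 ≤ A ∧ 1 ≤ M ∧ 1 ≤ K ∧ 6 ∣ A ∧ M ∣ A ∧
        Summable (fun k : ℕ => if c (a + k * M) = κ then 0 else wt k) ∧
        Summable (fun k : ℕ => if c (a * A + k * K) = κ then 0 else wt k) := by
    intro i j hij hcol
    obtain ⟨d, rfl⟩ : ∃ d, j = i + 1 + d := ⟨j - (i + 1), by omega⟩
    obtain ⟨B, hB⟩ := (hdiv d i).trans (h3 _ (hpos (i + 1 + d)))
    have hB' : n (D (i + 1 + d)) = n (D i) * (6 * N (D i) * B) := by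
      rw [hB, hD]
      ring
    have hB0 : 1 ≤ B := by
      rcases Nat.eq_zero_or_pos B with h | h
      · have h5 := h1 _ (hpos (i + 1 + d))
        rw [hB, h, mul_zero] at h5
        omega
      · exact h
    refine ⟨n (D i), 6 * N (D i) * B, N (D i), N (D (i + 1 + d)), κ (D i), h1 _ (hpos i),
      Nat.mul_pos (Nat.mul_pos (by norm_num) (h2 _ (hpos i))) hB0, h2 _ (hpos i),
      h2 _ (hpos _), Dvd.intro (N (D i) * B) (by ring), Dvd.intro (6 * B) (by ring),
      h4 _ (hpos i), ?_⟩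
    rw [← hB', hcol]
    exact h4 _ (hpos _)
  rcases lt_or_gt_of_ne hij with h | h
  · exact main i j h hcol
  · exact main j i h hcol.symm

/-- Primes in the progression `c₀ + L s` with the good colour. -/
private theorem good {r : ℕ} {c : ℕ → Fin r} {κ : Fin r} {b K α β c₀ L : ℕ} (hL : 1 ≤ L)
    (hβ : 1 ≤ β) (hcop : Nat.Coprime c₀ L)
    (hb : Summable (fun k : ℕ => if c (b + k * K) = κ then 0 else wt k)) :
    ¬ Summable (fun s : ℕ => if c (b + (α + β * s) * K) = κ then pw (c₀ + L * s) else 0) := by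
  intro hs
  obtain ⟨C, hC, hcomp⟩ := comp c₀ L α β hL hβ
  have hinj : Function.Injective (fun s : ℕ => α + β * s) := by
    intro s t hst
    have h2 : β * s = β * t := by
      have h3 : α + β * s = α + β * t := hst
      omega
    exact Nat.eq_of_mul_eq_mul_left hβ h2
  have h1 : Summable (fun s : ℕ => if c (b + (α + β * s) * K) = κ then 0 else wt (α + β * s)) :=
    hb.comp_injective hinj
  have h2 : Summable (fun s : ℕ =>
      (if c (b + (α + β * (s + 1)) * K) = κ then pw (c₀ + L * (s + 1)) else 0) +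
        C * (if c (b + (α + β * (s + 1)) * K) = κ then 0 else wt (α + β * (s + 1)))) :=
    ((summable_nat_add_iff 1).2 hs).add (((summable_nat_add_iff 1).2 h1).mul_left C)
  refine dir c₀ L hL hcop ((summable_nat_add_iff 1).1 ?_)
  refine Summable.of_nonneg_of_le (fun s => pw_nonneg _) (fun s => ?_) h2
  split_ifs with h
  · rw [mul_zero, add_zero]
  · rw [zero_add]
    exact hcomp (s + 1) (by omega)

/-- **Q1 and Q2 for colourings with almost monochromatic progressions.** Let `c` be a colouring of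
the positive integers with `r` colours. Suppose that for every `d` there are a multiple `n ≥ 1` of
`d`, a step `N ≥ 1` and a colour `κ` such that the set of the `k` for which `n + k N` does not have
the colour `κ` is thin: the sum of `log (k + 1) / (k + 1)` over it converges (for example, it is
empty). Then there is `y ≥ 1` such that, for a set of primes `p` with divergent sum of
`log p / p`, the integers `y` and `y (p - 1)` have the same colour, and also, for a set of primes
`p` with divergent sum of `log p / p`, the integers `y` and `y (p + 1)` have the same colour. -/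
theorem result {r : ℕ} (c : ℕ → Fin r)
    (hc : ∀ d, 1 ≤ d → ∃ n N κ, 1 ≤ n ∧ 1 ≤ N ∧ d ∣ n ∧
      Summable (fun k : ℕ => if c (n + k * N) = κ then (0 : ℝ) else
        Real.log ((k : ℝ) + 1) / ((k : ℝ) + 1))) :
    ∃ y, 1 ≤ y ∧
      ¬ Summable (fun p : ℕ => if p.Prime ∧ 3 ≤ p ∧ c (y * (p - 1)) = c y then
        Real.log (p : ℝ) / (p : ℝ) else 0) ∧
      ¬ Summable (fun p : ℕ => if p.Prime ∧ c (y * (p + 1)) = c y then
        Real.log (p : ℝ) / (p : ℝ) else 0) := by
  obtain ⟨a, A, M, K, κ, ha, hA, hM, hK, h6, hMA, hca, hcb⟩ := pair c hc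
  obtain ⟨Q, hQ⟩ : ∃ Q, Q = M * K := ⟨_, rfl⟩
  have hQ0 : 0 < Q := by
    rw [hQ]
    exact Nat.mul_pos hM hK
  obtain ⟨u, hu0, hu1, huQ, hu2, hu3⟩ := residue hA h6 hQ0
  -- the inverse of `u` modulo `Q`
  obtain ⟨f, hf⟩ : ∃ f, Nat.totient Q = f + 1 := ⟨Nat.totient Q - 1, by
    have := Nat.totient_pos.2 hQ0
    omega⟩
  have hinv : u ^ f * u ≡ 1 [MOD Q] := by
    have h1 := Nat.ModEq.pow_totient huQ
    rwa [hf, pow_succ] at h1
  have hm1 : 1 ≤ u ^ f := pow_pos hu0 f
  have hm2 : M ∣ u ^ f - 1 := by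
    have h1 : 1 ≡ u [MOD M] := (Nat.modEq_iff_dvd' hu0).2 (hMA.trans hu1)
    have h2 := h1.pow f
    rw [one_pow] at h2
    exact (Nat.modEq_iff_dvd' hm1).1 h2
  -- choice of `m`
  obtain ⟨w, hw⟩ := hm2
  have hw' : u ^ f = 1 + M * w := by omega
  obtain ⟨j, hj⟩ : ∃ j : ℕ, c (a + (a * w + a * K * j) * M) = κ := by
    by_contra hno
    push Not at hno
    have hinj : Function.Injective (fun j : ℕ => a * w + a * K * j) := by
      intro s t hst
      have h3 : a * w + a * K * s = a * w + a * K * t := hst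
      have h2 : a * K * s = a * K * t := by omega
      exact Nat.eq_of_mul_eq_mul_left (Nat.mul_pos ha hK) h2
    have h1 := hca.comp_injective hinj
    refine lin (a * w) (a * K) (Nat.mul_pos ha hK) (h1.congr fun j => ?_)
    show (if c (a + (a * w + a * K * j) * M) = κ then 0 else wt (a * w + a * K * j)) = _
    rw [if_neg (hno j)]
  obtain ⟨m, hm⟩ : ∃ m, m = u ^ f + Q * j := ⟨_, rfl⟩
  have hy : a * m = a + (a * w + a * K * j) * M := by
    rw [hm, hw', hQ]
    ring
  have hcy : c (a * m) = κ := by rw [hy, hj]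
  have hm0 : 1 ≤ m := by omega
  have hmu : ∃ v, m * u = 1 + Q * v := by
    have h1 : m * u ≡ 1 [MOD Q] := by
      have h2 : u ^ f + Q * j ≡ u ^ f [MOD Q] := by
        have h5 : Q * j ≡ 0 [MOD Q] := (Nat.modEq_zero_iff_dvd).2 (Dvd.intro j rfl)
        have h6' := h5.add_left (u ^ f)
        rwa [add_zero] at h6'
      rw [hm]
      exact (h2.mul_right u).trans hinv
    have h2 : 1 ≤ m * u := Nat.mul_pos hm0 hu0
    obtain ⟨v, hv⟩ := (Nat.modEq_iff_dvd' h2).1 h1.symm
    exact ⟨v, by omega⟩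
  obtain ⟨v, hv⟩ := hmu
  have hprod : ∀ s, a * m * (A * (u + Q * s)) =
      a * A + (a * A * M * v + a * A * M * m * s) * K := by
    intro s
    have h1 : a * m * (A * (u + Q * s)) = a * A * (m * u) + a * A * m * Q * s := by ring
    rw [h1, hv, hQ]
    ring
  have hL : 1 ≤ A * Q := Nat.mul_pos hA hQ0
  have hβ : 1 ≤ a * A * M * m := Nat.mul_pos (Nat.mul_pos (Nat.mul_pos ha hA) hM) hm0
  have hAu : 6 ≤ A * u := by
    have h1 : 6 ≤ A := Nat.le_of_dvd hA h6
    calc 6 = 6 * 1 := rfl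
      _ ≤ A * u := Nat.mul_le_mul h1 hu0
  refine ⟨a * m, Nat.mul_pos ha hm0, ?_, ?_⟩
  · intro hs
    have hinj : Function.Injective (fun s : ℕ => 1 + A * u + A * Q * s) := by
      intro s t hst
      have h3 : 1 + A * u + A * Q * s = 1 + A * u + A * Q * t := hst
      have h2 : A * Q * s = A * Q * t := by omega
      exact Nat.eq_of_mul_eq_mul_left hL h2
    refine good (α := a * A * M * v) hL hβ hu2 hcb ((hs.comp_injective hinj).congr fun s => ?_)
    show (if (1 + A * u + A * Q * s).Prime ∧ 3 ≤ 1 + A * u + A * Q * s ∧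
      c (a * m * (1 + A * u + A * Q * s - 1)) = c (a * m) then
        Real.log ((1 + A * u + A * Q * s : ℕ) : ℝ) / ((1 + A * u + A * Q * s : ℕ) : ℝ) else 0) = _
    have h1 : 1 + A * u + A * Q * s - 1 = A * (u + Q * s) := by
      have h2 : 1 + A * u + A * Q * s = 1 + A * (u + Q * s) := by ring
      rw [h2, Nat.add_sub_cancel_left]
    rw [h1, hprod, hcy]
    unfold pw
    have h3 : 3 ≤ 1 + A * u + A * Q * s := by omega
    by_cases h4 : (1 + A * u + A * Q * s).Prime
    · by_cases h5 : c (a * A + (a * A * M * v + a * A * M * m * s) * K) = κ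
      · rw [if_pos ⟨h4, h3, h5⟩, if_pos h5, if_pos h4]
      · rw [if_neg (fun h => h5 h.2.2), if_neg h5]
    · rw [if_neg (fun h => h4 h.1), if_neg h4, ite_self]
  · intro hs
    have hinj : Function.Injective (fun s : ℕ => A * u - 1 + A * Q * s) := by
      intro s t hst
      have h3 : A * u - 1 + A * Q * s = A * u - 1 + A * Q * t := hst
      have h2 : A * Q * s = A * Q * t := by omega
      exact Nat.eq_of_mul_eq_mul_left hL h2
    refine good (α := a * A * M * v) hL hβ hu3 hcb ((hs.comp_injective hinj).congr fun s => ?_)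
    show (if (A * u - 1 + A * Q * s).Prime ∧
      c (a * m * (A * u - 1 + A * Q * s + 1)) = c (a * m) then
        Real.log ((A * u - 1 + A * Q * s : ℕ) : ℝ) / ((A * u - 1 + A * Q * s : ℕ) : ℝ) else 0) = _
    have h1 : A * u - 1 + A * Q * s + 1 = A * (u + Q * s) := by
      have h2 : A * u - 1 + A * Q * s + 1 = A * u + A * Q * s := by omega
      rw [h2]
      ring
    rw [h1, hprod, hcy]
    unfold pw
    by_cases h4 : (A * u - 1 + A * Q * s).Prime
    · by_cases h5 : c (a * A + (a * A * M * v + a * A * M * m * s) * K) = κ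
      · rw [if_pos ⟨h4, h5⟩, if_pos h5, if_pos h4]
      · rw [if_neg (fun h => h5 h.2), if_neg h5]
    · rw [if_neg (fun h => h4 h.1), if_neg h4, ite_self]

end Pool.Agent.Results.MP_3a32b7_an.ProgressionColourings
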